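import Pool.Agent.MDG.Stmts
import Pool.Agent.Helper50_HEC.CAP

/-!
# Squad MDG, row CP5 (helper15): capacities of the five nested cuts
-/

set_option autoImplicit false

open Finset

namespace Pool.Agent.MDG.H15

open Pool.Agent.HEC

theorem cp5 : Cp5Stmt := by
  intro V _ G N W
  have a1 := Pool.Agent.HEC.H50.cut_split G N.t1 W
  have a2 := Pool.Agent.HEC.H50.cut_split (sam G N.t1) N.t2 W
  have a3 := Pool.Agent.HEC.H50.cut_split (sam (sam G N.t1) N.t2) N.t3 W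
  have a4 := Pool.Agent.HEC.H50.cut_split (sam (sam (sam G N.t1) N.t2) N.t3) N.t4 W
  have a5 := Pool.Agent.HEC.H50.cut_split (sam (sam (sam (sam G N.t1) N.t2) N.t3) N.t4) N.t5 W
  have c1 := N.c1 W
  have c2 := N.c2 W
  have c3 := N.c3 W
  have c4 := N.c4 W
  have c5 := N.c5 W
  unfold Nest5.S Nest5.H Nest5.E2 Nest5.E3 Nest5.E4 Nest5.E5
  refine ⟨?_, ?_, ?_, ?_, ?_, ?_⟩ <;> omega

end Pool.Agent.MDG.H15
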